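import Mathlib
import Pool.Agent.Lib.lead.CXGraphRed

namespace Pool.Agent.Results.MP_ad21dd_lc.Full

open Pool.Agent.Lib.CX

/-- An instance: number of vertices n in unary, coloured edges (u, v, red?), s, t, r, b. -/
abbrev Inst := List Unit × List (ℕ × ℕ × Bool) × ℕ × ℕ × ℕ × ℕ

/-- The edge list is a simple graph on 0, ..., n-1 and s, t are distinct vertices. -/
def Valid (a : Inst) : Prop :=
  (∀ e ∈ a.2.1, e.1 < a.1.length ∧ e.2.1 < a.1.length ∧ e.1 ≠ e.2.1) ∧
    (a.2.1.map fun e => s(e.1, e.2.1)).Nodup ∧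
    a.2.2.1 < a.1.length ∧ a.2.2.2.1 < a.1.length ∧ a.2.2.1 ≠ a.2.2.2.1

/-- The number of edges of colour c with exactly one end in X. -/
def cutSize (E : List (ℕ × ℕ × Bool)) (c : Bool) (X : Finset ℕ) : ℕ :=
  E.countP fun e => e.2.2 = c ∧ ¬ (e.1 ∈ X ↔ e.2.1 ∈ X)

/-- Some s-t cut has at most r red and at most b blue edges. -/
def RB (a : Inst) : Prop :=
  ∃ X ⊆ Finset.range a.1.length, a.2.2.1 ∈ X ∧ a.2.2.2.1 ∉ X ∧
    cutSize a.2.1 true X ≤ a.2.2.2.2.1 ∧ cutSize a.2.1 false X ≤ a.2.2.2.2.2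

abbrev W := ℕ × ℕ × ℕ
def cd (x : W) : ℕ := Nat.pair x.1 (Nat.pair x.2.1 x.2.2)
theorem cd_inj : Function.Injective cd := fun a b h => by
  simp only [cd, Nat.pair_eq_pair] at h; exact Prod.ext h.1 (Prod.ext h.2.1 h.2.2)

def PP (g : Gr) : List (ℕ × ℕ) := (List.range g.n ×ˢ List.range g.n).filter fun p => g.adjB p.1 p.2
def blk (p : ℕ × ℕ) : List (W × W × Bool) :=
  [((3, p), (1, 0, 0), true), ((3, p), (2, p.1, 0), true), ((3, p), (2, p.2, 0), true),
   ((4, p), (0, 0, 0), true), ((4, p), (2, p.1, 0), true),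
   ((5, p), (0, 0, 0), true), ((5, p), (2, p.2, 0), true)]
def EE (g : Gr) : List (W × W × Bool) := ((1, 0, 0), (0, 0, 0), true) ::
  ((List.range g.n).map (fun v => ((2, v, 0), (1, 0, 0), false)) ++ (PP g).flatMap blk)
def red (a : Gr × ℕ) : Inst := (List.replicate (((a.1.n + 6) ^ 2) ^ 2) (),
  (EE a.1).map (fun e => (cd e.1, cd e.2.1, e.2.2)), cd (0, 0, 0), cd (1, 0, 0),
  if a.2 ≤ a.1.n ∧ a.2 * a.2 - a.2 ≤ (PP a.1).length then
    2 * (PP a.1).length - (a.2 * a.2 - a.2) + 1 else 0, a.2)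

theorem mem_PP {g : Gr} {p} : p ∈ PP g ↔ g.adjB p.1 p.2 = true := by
  simp only [PP, List.mem_filter, and_iff_right_iff_imp]
  intro h
  simp only [Gr.adjB, decide_eq_true_eq] at h
  exact List.pair_mem_product.2 ⟨List.mem_range.2 h.1, List.mem_range.2 h.2.1⟩

theorem nd_PP (g : Gr) : (PP g).Nodup := (List.nodup_range.product List.nodup_range).filter _

theorem cd_lt {n : ℕ} {x : W} (h1 : x.1 < 6) (h2 : x.2.1 ≤ n) (h3 : x.2.2 ≤ n) :
    cd x < ((n + 6) ^ 2) ^ 2 := by
  have a1 := Nat.pair_lt_max_add_one_sq x.2.1 x.2.2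
  have a2 : (max x.2.1 x.2.2 + 1) ^ 2 ≤ (n + 6) ^ 2 := Nat.pow_le_pow_left (by omega) 2
  have a3 : 6 ^ 2 ≤ (n + 6) ^ 2 := Nat.pow_le_pow_left (by omega) 2
  exact (Nat.pair_lt_max_add_one_sq _ _).trans_le (Nat.pow_le_pow_left (by omega) 2)

theorem EE_s (g : Gr) : ∀ e ∈ EE g, (e.1.1 < 6 ∧ e.1.2.1 ≤ g.n ∧ e.1.2.2 ≤ g.n) ∧
    (e.2.1.2.1 ≤ g.n ∧ e.2.1.2.2 ≤ g.n) ∧ e.2.1.1 < e.1.1 ∧ e.2.2 = decide (e.1.1 ≠ 2) := by
  simp only [EE, List.forall_mem_cons, List.forall_mem_append, List.forall_mem_map,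
    List.forall_mem_flatMap, mem_PP, blk, Gr.adjB, decide_eq_true_eq, List.mem_range]
  refine ⟨by simp, fun v hv => by simp; omega, fun p hp => ?_⟩
  simp; omega

theorem valid (a : Gr × ℕ) : Valid (red a) := by
  refine ⟨?_, ?_, ?_, ?_, by simp [red, cd]⟩
  · simp only [red, List.forall_mem_map, List.length_replicate]
    intro e he
    obtain ⟨h1, h2, h3, -⟩ := EE_s _ e he
    exact ⟨cd_lt h1.1 h1.2.1 h1.2.2, cd_lt (by omega) h2.1 h2.2,
      fun h => by rw [cd_inj h] at h3; omega⟩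
  · simp only [red, List.map_map]
    refine List.Nodup.map_on (fun e he f hf h => ?_) ?_
    · have h1 := (EE_s _ e he).2.2
      have h2 := (EE_s _ f hf).2.2
      simp only [Function.comp, Sym2.eq_iff, cd_inj.eq_iff] at h
      rcases h with h | h
      · exact Prod.ext h.1 (Prod.ext h.2 (by rw [h1.2, h2.2, h.1]))
      · rw [h.1, h.2] at h1; omega
    · rw [EE, List.nodup_cons, List.nodup_append, List.nodup_flatMap]
      refine ⟨by simp [blk], List.nodup_range.map fun a b h => by simpa using h,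
        ⟨fun p hp => ?_, (nd_PP _).imp fun {p q} h => ?_⟩, by simp [blk]⟩
      · have := mem_PP.1 hp
        simp only [Gr.adjB, decide_eq_true_eq] at this
        simp [blk, this.2.2.1]
      · simp [Function.onFun, blk, h.symm]
  · simpa [red] using cd_lt (x := (0, 0, 0)) (by simp) (by simp) (by simp)
  · simpa [red] using cd_lt (x := (1, 0, 0)) (by simp) (by simp) (by simp)

theorem rb_iff {a : Inst} (h : Valid a) : RB a ↔ ∃ Y : ℕ → Bool, Y a.2.2.1 = true ∧
    Y a.2.2.2.1 = false ∧ a.2.1.countP (fun e => e.2.2 && Y e.1 != Y e.2.1) ≤ a.2.2.2.2.1 ∧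
      a.2.1.countP (fun e => !e.2.2 && Y e.1 != Y e.2.1) ≤ a.2.2.2.2.2 := by
  constructor
  · rintro ⟨X, -, h1, h2, h3, h4⟩
    refine ⟨fun x => decide (x ∈ X), by simpa, by simpa, le_of_eq_of_le ?_ h3, le_of_eq_of_le ?_ h4⟩ <;>
      exact List.countP_congr fun e _ => by by_cases e.1 ∈ X <;> by_cases e.2.1 ∈ X <;> simp [*]
  · rintro ⟨Y, h1, h2, h3, h4⟩
    refine ⟨(Finset.range a.1.length).filter (Y · = true), Finset.filter_subset _ _,
      by simp [h1, h.2.2.1], by simp [h2], le_of_eq_of_le ?_ h3, le_of_eq_of_le ?_ h4⟩ <;>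
    exact List.countP_congr fun e he => by
      have := h.1 e he
      cases h5 : Y e.1 <;> cases h6 : Y e.2.1 <;> simp [*]

theorem cnt (Z : W → Bool) (h0 : Z (0, 0, 0) = true) (h1 : Z (1, 0, 0) = false) (l : List (ℕ × ℕ)) :
    2 * l.length ≤ (l.flatMap blk).countP (fun e => e.2.2 && Z e.1 != Z e.2.1)
      + l.countP (fun p => Z (2, p.1, 0) && Z (2, p.2, 0)) ∧
    ((∀ p, Z (3, p) = (Z (2, p.1, 0) && Z (2, p.2, 0)) ∧ Z (4, p) = true ∧ Z (5, p) = true) →
      (l.flatMap blk).countP (fun e => e.2.2 && Z e.1 != Z e.2.1)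
      + l.countP (fun p => Z (2, p.1, 0) && Z (2, p.2, 0)) ≤ 2 * l.length) := by
  induction l with
  | nil => simp
  | cons p l ih =>
    simp only [List.flatMap_cons, List.countP_append, List.countP_cons, blk, List.countP_nil,
      List.length_cons, h0, h1]
    constructor
    · have := ih.1
      cases Z (3, p) <;> cases Z (4, p) <;> cases Z (5, p) <;> cases Z (2, p.1, 0) <;>
        cases Z (2, p.2, 0) <;> simp <;> omega
    · intro h
      have := ih.2 h
      rw [(h p).1, (h p).2.1, (h p).2.2]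
      cases Z (2, p.1, 0) <;> cases Z (2, p.2, 0) <;> simp <;> omega

theorem cntE (g : Gr) (Z : W → Bool) (h0 : Z (0, 0, 0) = true) (h1 : Z (1, 0, 0) = false) :
    (EE g).countP (fun e => e.2.2 && Z e.1 != Z e.2.1)
      = ((PP g).flatMap blk).countP (fun e => e.2.2 && Z e.1 != Z e.2.1) + 1 ∧
    (EE g).countP (fun e => !e.2.2 && Z e.1 != Z e.2.1)
      = ((Finset.range g.n).filter fun v => Z (2, v, 0) = true).card ∧
    (PP g).countP (fun p => Z (2, p.1, 0) && Z (2, p.2, 0)) =
      (((Finset.range g.n).filter fun v => Z (2, v, 0) = true).offDiag.filter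
        fun p => g.adjB p.1 p.2 = true).card := by
  refine ⟨by simp [EE, h0, h1, List.countP_map, Function.comp_def], ?_, ?_⟩
  · have : ((PP g).flatMap blk).countP (fun e => !e.2.2 && Z e.1 != Z e.2.1) = 0 := by
      simp [List.countP_eq_zero, blk]
    simp only [EE, List.countP_cons, List.countP_append, this, List.countP_map, Function.comp_def, h1]
    rw [List.countP_eq_length_filter, ← List.toFinset_card_of_nodup (List.nodup_range.filter _)]
    simp [List.toFinset_range]
  · rw [List.countP_eq_length_filter, ← List.toFinset_card_of_nodup ((nd_PP g).filter _)]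
    congr 1
    ext p
    simp only [List.toFinset_filter, Finset.mem_filter, List.mem_toFinset, mem_PP, Bool.and_eq_true,
      Finset.mem_offDiag, Finset.mem_range, Gr.adjB, decide_eq_true_eq]
    tauto

theorem result : NPComplete fun a : {a : Inst // Valid a} => RB a.1 := by
  constructor
  · refine InNP.of_cert' (fun a (c : List ℕ) => a.1.2.2.1 ∈ c ∧ a.1.2.2.2.1 ∉ c ∧
      a.1.2.1.countP (fun e => e.2.2 && decide (e.1 ∈ c) != decide (e.2.1 ∈ c)) ≤ a.1.2.2.2.2.1 ∧
      a.1.2.1.countP (fun e => !e.2.2 && decide (e.1 ∈ c) != decide (e.2.1 ∈ c)) ≤ a.1.2.2.2.2.2)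
      (fun a => a.1.1.length * (3 * a.1.1.length + 2 + 1) + 2) (by fun_prop) (by fun_prop)
      (fun a c h => (rb_iff a.2).2 ⟨fun x => decide (x ∈ c), by simpa using h.1,
        by simpa using h.2.1, h.2.2⟩) ?_
    rintro ⟨a, ha⟩ ⟨X, h0, h1, h2, h3, h4⟩
    refine ⟨X.toList, (size_list_le (B := 3 * a.1.length + 2) fun x hx => ?_).trans ?_, by simpa,
      by simpa, le_of_eq_of_le ?_ h3, le_of_eq_of_le ?_ h4⟩
    · have : x < a.1.length := Finset.mem_range.1 (h0 (Finset.mem_toList.1 hx))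
      exact (size_nat_le x).trans (by omega)
    · have := Finset.card_le_card h0
      simp only [Finset.length_toList, Finset.card_range] at this ⊢
      gcongr
    all_goals
      exact List.countP_congr fun e _ => by by_cases e.1 ∈ X <;> by_cases e.2.1 ∈ X <;> simp [*]
  refine clique_hard.red ⟨fun a => ⟨red a, valid a⟩,
    PT.subtype (by unfold red EE blk PP cd; fun_prop) _, fun ⟨g, k⟩ => ?_⟩
  refine Iff.trans ?_ (rb_iff (valid (g, k))).symm
  simp only [red, List.countP_map, Function.comp_def]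
  constructor
  · rintro ⟨K : Finset (Fin g.n), h1 : g.G.IsClique K, h2 : k ≤ K.card⟩
    obtain ⟨K, h3, rfl⟩ := Finset.exists_subset_card_eq h2
    replace h1 := h1.subset h3
    let Z : W → Bool := fun x => [true, false, decide (x.2.1 ∈ K.image Fin.val),
      decide (x.2.1 ∈ K.image Fin.val) && decide (x.2.2 ∈ K.image Fin.val)].getD x.1 true
    let Y : ℕ → Bool := fun n => Z (n.unpair.1, n.unpair.2.unpair)
    have hY : ∀ x, Y (cd x) = Z x := fun x => by simp [Y, cd]
    obtain ⟨e1, e2, e3⟩ := cntE g Z rfl rfl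
    have e4 := (cnt Z rfl rfl (PP g)).2 fun p => ⟨rfl, rfl, rfl⟩
    have e5 : (Finset.range g.n).filter (fun v => Z (2, v, 0) = true) = K.image Fin.val := by
      ext v
      simp only [Z, Finset.mem_filter, Finset.mem_range, List.getD_cons_succ, List.getD_cons_zero,
        decide_eq_true_eq, and_iff_right_iff_imp, Finset.mem_image]
      rintro ⟨i, -, rfl⟩; exact i.2
    have e6 : (K.image Fin.val).card = K.card := Finset.card_image_of_injective _ Fin.val_injective
    rw [e5, Finset.filter_true_of_mem (fun p hp => by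
      simp only [Finset.mem_offDiag, Finset.mem_image] at hp
      obtain ⟨⟨i, hi, e⟩, ⟨j, hj, e'⟩, h⟩ := hp
      rw [← e, ← e'] at h ⊢
      exact (g.adjB_iff i j).2 (h1 hi hj fun e => h (by rw [e]))), Finset.offDiag_card, e6] at e3
    have e7 := List.countP_le_length (p := fun p => Z (2, p.1, 0) && Z (2, p.2, 0)) (l := PP g)
    refine ⟨Y, hY _, hY _, ?_, ?_⟩
    · simp only [hY, e1]
      rw [if_pos ⟨by simpa using K.card_le_univ, by omega⟩]
      omega
    · simp only [hY, e2, e5, e6, le_refl]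
  · rintro ⟨Y, h1, h2, h3, h4⟩
    obtain ⟨e1, e2, e3⟩ := cntE g (fun x => Y (cd x)) h1 h2
    have e4 := (cnt (fun x => Y (cd x)) h1 h2 (PP g)).1
    rw [e1] at h3
    rw [e2] at h4
    split_ifs at h3 with hk
    swap; · omega
    by_cases k0 : k = 0
    · exact ⟨∅, by simp, by simp [k0]⟩
    by_cases k1 : k = 1
    · exact ⟨{⟨0, show 0 < g.n by omega⟩}, by simp, by simp [k1]⟩
    generalize hT : (Finset.range g.n).filter (fun v => Y (cd (2, v, 0)) = true) = T at *
    have e5 := Finset.card_filter_le T.offDiag fun p => g.adjB p.1 p.2 = true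
    have e6 := T.offDiag_card
    have e7 : T.card = k := by
      by_contra hc
      obtain ⟨j, rfl⟩ : ∃ j, k = j + 2 := ⟨k - 2, by omega⟩
      have : T.card * T.card ≤ T.card * (j + 1) := Nat.mul_le_mul_left _ (by omega)
      have : T.card * j ≤ (j + 1) * j := Nat.mul_le_mul_right _ (by omega)
      have : (j + 2) * (j + 2) - (j + 2) ≤ T.card * T.card - T.card := by omega
      have : (j + 2) * (j + 2) = (j + 1) * j + 3 * j + 4 := by ring
      have : T.card * (j + 1) = T.card * j + T.card := by ring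
      omega
    have e8 := Finset.filter_eq_self.1 (Finset.eq_of_subset_of_card_le (Finset.filter_subset
      (fun p => g.adjB p.1 p.2 = true) T.offDiag) (by rw [e7] at e6; omega))
    refine ⟨Finset.univ.filter fun i : Fin g.n => i.1 ∈ T, fun i hi j hj h => ?_, ?_⟩
    · simp only [Finset.coe_filter, Finset.mem_univ, true_and, Set.mem_ofPred_eq] at hi hj
      exact (g.adjB_iff i j).1 (e8 (i, j) (Finset.mem_offDiag.2 ⟨hi, hj, Fin.val_ne_of_ne h⟩))
    · rw [← e7]
      refine le_trans (Finset.card_le_card fun v hv => ?_) (Finset.card_image_le (f := Fin.val))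
      have : v < g.n := by rw [← hT] at hv; simpa using (Finset.mem_filter.1 hv).1
      exact Finset.mem_image.2 ⟨⟨v, this⟩, by simpa, rfl⟩

end Pool.Agent.Results.MP_ad21dd_lc.Full
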